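import Mathlib
import Pool.Agent.H82.Adapted.Defs
import Pool.Agent.H82.Adapted.Assembly

/-!
# MP_d49e10_an, Q1: every sectional-hyperbolic set has an adapted metric

The definitions used in the statement are in `Pool/Agent/H82/Adapted/Defs.lean`.

Outline of the proof. Let `A_t` be the derivative cocycle over `Λ` and let `G` be a continuous field
of inner products over `Λ` for which `E` and `F` are orthogonal, such that the conditions 1-3 (with
`C = 1`) hold at one time `2T`. Let `G'` be the geometric mean of `G` and of its pullback under
the time `T` map. The monotonicity of geometric means and their compatibility with exterior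
powers show that the conditions 1-3 with `C = 1` hold for `G'` at the time `T`, with the same rate.
Starting from the average of the orthogonalised metric over the times in `[0, 1]`, which satisfies
`G(A_t v) ≤ exp (2 L |t|) G(v)`, and iterating with times `T₀ / 2 ^ k`, the fields
converge uniformly; the limit satisfies the conditions at all dyadic multiples of `T₀`, hence at all
positive times. The limit field is extended from `Λ` to `M` by a partition of unity. The file also
rests on a proof that the flow of a `C¹` vector field is `C¹` in the space variable.
-/

namespace Pool.Agent.Results.MP_d49e10_an.AdaptedMetric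

open Set Bundle Pool.Agent.H82.Adapted
open scoped Manifold ContDiff

/-- **Adapted metrics for sectional-hyperbolic sets.** Let `M` be a closed smooth manifold (modelled
on a finite-dimensional real normed space `V`, so of any dimension), let `X` be a `C¹` vector field
on `M` with flow `φ`, and let `Λ` be a compact invariant set, sectional-hyperbolic with splitting
`T_Λ M = E ⊕ F`. Then `M` has a (continuous) Riemannian metric adapted to `Λ`. -/
theorem result (V M : Type*) [NormedAddCommGroup V] [NormedSpace ℝ V] [FiniteDimensional ℝ V]
    [TopologicalSpace M] [T2Space M] [CompactSpace M] [ChartedSpace V M]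
    [IsManifold 𝓘(ℝ, V) ∞ M]
    (X : ∀ x : M, TangentSpace 𝓘(ℝ, V) x)
    (hX : ContMDiff 𝓘(ℝ, V) 𝓘(ℝ, V).tangent 1 fun x => (⟨x, X x⟩ : TangentBundle 𝓘(ℝ, V) M))
    (φ : ℝ → M → M) (hφ : IsFlow X φ)
    (Λ : Set M) (hΛ : IsCompact Λ) (hinv : ∀ x ∈ Λ, ∀ t : ℝ, φ t x ∈ Λ)
    (E F : ∀ x : M, Submodule ℝ (TangentSpace 𝓘(ℝ, V) x))
    (h : SectionalHyperbolic φ Λ E F) :
    ∃ g : RMetric V M, IsAdapted g φ Λ E F :=
  adapted_metric hX hφ hΛ hinv h

end Pool.Agent.Results.MP_d49e10_an.AdaptedMetric
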